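import Pool.Agent.Helper83_S1S3.Stmts

/-!
# Helper22: the covers `ℝ × S^n → S¹ × S^n` and `ℝ × (S^n - p points) → piece`
-/

set_option autoImplicit false
set_option linter.unusedSectionVars false

open scoped Manifold ContDiff Topology
open CategoryTheory Set

noncomputable section

namespace Pool.Agent.S1S3.Helper22

open Pool.Agent.S1S3

/-- the parametrization of the circle by the reals -/
def ex (θ : ℝ) : Circle := Circle.exp (2 * Real.pi * θ)

theorem continuous_ex : Continuous ex := by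
  unfold ex
  fun_prop

theorem isOpenMap_ex : IsOpenMap ex := by
  have h1 : IsOpenMap fun θ : ℝ => 2 * Real.pi * θ :=
    (Homeomorph.mulLeft₀ (2 * Real.pi) (by positivity)).isOpenMap
  exact isLocalHomeomorph_circleExp.isOpenMap.comp h1

theorem ex_surjective (z : Circle) : ∃ θ, ex θ = z := by
  refine ⟨Complex.arg z / (2 * Real.pi), ?_⟩
  unfold ex
  rw [mul_div_cancel₀ _ (by positivity : (2 * Real.pi) ≠ 0)]
  exact Circle.exp_arg z

theorem ex_inj {a : ℝ} {θ θ' : ℝ} (h1 : θ ∈ Ioo a (a + 1)) (h2 : θ' ∈ Ioo a (a + 1))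
    (h : ex θ = ex θ') : θ = θ' := by
  unfold ex at h
  rw [Circle.exp_eq_exp] at h
  obtain ⟨m, hm⟩ := h
  have hpi : (0 : ℝ) < 2 * Real.pi := by positivity
  have h3 : θ = θ' + m := by
    have : 2 * Real.pi * θ = 2 * Real.pi * (θ' + m) := by rw [hm]; ring
    exact mul_left_cancel₀ hpi.ne' this
  have h4 : (m : ℝ) < 1 := by linarith [h1.1, h1.2, h2.1, h2.2]
  have h5 : (-1 : ℝ) < m := by linarith [h1.1, h1.2, h2.1, h2.2]
  have h6 : m < 1 := by exact_mod_cast h4
  have h7 : -1 < m := by exact_mod_cast h5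
  have h8 : m = 0 := by omega
  rw [h3, h8]
  simp

theorem ex_add_one (θ : ℝ) : ex (θ + 1) = ex θ := by
  unfold ex
  rw [mul_add, mul_one, Circle.exp_add, Circle.exp_two_pi, mul_one]

theorem ex_zero : ex 0 = 1 := by
  unfold ex
  rw [mul_zero, Circle.exp_zero]

/-! ### the product with a sphere -/

/-- the cover of `S¹ × Z` -/
def coverP (Z : Type) [TopologicalSpace Z] : C(ℝ × Z, Circle × Z) :=
  ⟨fun q => (ex q.1, q.2), (continuous_ex.comp continuous_fst).prodMk continuous_snd⟩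

theorem coverP_openEmb (Z : Type) [TopologicalSpace Z] (a : ℝ) :
    Topology.IsOpenEmbedding fun q : (Ioo a (a + 1)) × Z => coverP Z (q.1, q.2) := by
  apply Topology.IsOpenEmbedding.of_continuous_injective_isOpenMap
  · fun_prop
  · rintro ⟨⟨θ, h1⟩, z⟩ ⟨⟨θ', h2⟩, z'⟩ h
    have h3 : ex θ = ex θ' := congrArg Prod.fst h
    have h4 : z = z' := congrArg Prod.snd h
    have h5 := ex_inj h1 h2 h3
    subst h5 h4
    rfl
  · have h1 : IsOpenMap (fun q : (Ioo a (a + 1)) × Z => ((q.1 : ℝ), q.2)) :=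
      (isOpen_Ioo.isOpenMap_subtype_val).prodMap IsOpenMap.id
    have h2 : IsOpenMap (fun q : ℝ × Z => (ex q.1, q.2)) := isOpenMap_ex.prodMap IsOpenMap.id
    exact h2.comp h1

/-! ### the piece -/

/-- the cover of the piece -/
def coverQ (p m : ℕ) (hp : p ≠ 0) : C(ℝ × Punc p m, Piece p m) where
  toFun q := ⟨(ex q.1, ⟨rot ((ex (q.1 / p) : Circle) : ℂ) (q.2.1 : Eu (m + 3)), by
      rw [mem_sphere_zero_iff_norm, norm_rot_circle, norm_eq_of_mem_sphere]⟩), by
    intro ζ hζ h
    simp only at h hζ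
    refine q.2.2 ((ex (q.1 / p))⁻¹ * ζ) ?_ ?_
    · rw [mul_pow, inv_pow, hζ]
      have : ex (q.1 / p) ^ p = ex q.1 := by
        unfold ex
        rw [← Circle.exp_nsmul, nsmul_eq_mul]
        congr 1
        have : (p : ℝ) ≠ 0 := Nat.cast_ne_zero.2 hp
        field_simp
      rw [this, inv_mul_cancel]
    · have h2 := congrArg (rot (((ex (q.1 / p))⁻¹ : Circle) : ℂ)) h
      rw [rot_inv_rot] at h2
      rw [h2]
      unfold core
      rw [← rot_mul, ← Circle.coe_mul]⟩
  continuous_toFun := by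
    refine Continuous.subtype_mk (Continuous.prodMk (continuous_ex.comp continuous_fst) ?_) _
    refine Continuous.subtype_mk ?_ _
    apply Continuous.rot
    · exact continuous_subtype_val.comp (continuous_ex.comp (continuous_fst.div_const _))
    · fun_prop

theorem ex_div_pow (p : ℕ) (hp : p ≠ 0) (θ : ℝ) : ex (θ / p) ^ p = ex θ := by
  unfold ex
  rw [← Circle.exp_nsmul, nsmul_eq_mul]
  congr 1
  have : (p : ℝ) ≠ 0 := Nat.cast_ne_zero.2 hp
  field_simp

/-- the intermediate cover: pairs `(θ, y)` with `(ex θ, y)` in the piece -/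
abbrev Mid (p m : ℕ) : Type :=
  {q : ℝ × Sn (m + 2) // (ex q.1, q.2) ∈ pieceSet p m}

/-- straightening of the cover -/
def midH (p m : ℕ) (hp : p ≠ 0) : ℝ × Punc p m ≃ₜ Mid p m where
  toFun q := ⟨(q.1, ((coverQ p m hp q).1.2)), (coverQ p m hp q).2⟩
  invFun q := (q.1.1, ⟨⟨rot (((ex (q.1.1 / p))⁻¹ : Circle) : ℂ) (q.1.2 : Eu (m + 3)), by
      rw [mem_sphere_zero_iff_norm, norm_rot_circle, norm_eq_of_mem_sphere]⟩, by
    intro ζ hζ h
    simp only at h
    refine q.2 (ex (q.1.1 / p) * ζ) ?_ ?_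
    · rw [mul_pow, hζ, mul_one, ex_div_pow p hp]
    · have h2 := congrArg (rot ((ex (q.1.1 / p) : Circle) : ℂ)) h
      rw [rot_rot_inv] at h2
      simp only
      rw [h2]
      unfold core
      rw [← rot_mul, ← Circle.coe_mul]⟩)
  left_inv q := by
    refine Prod.ext rfl (Subtype.ext (Subtype.ext ?_))
    exact rot_inv_rot _ _
  right_inv q := by
    refine Subtype.ext (Prod.ext rfl (Subtype.ext ?_))
    exact rot_rot_inv _ _
  continuous_toFun := by fun_prop
  continuous_invFun := by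
    refine Continuous.prodMk (by fun_prop) ?_
    refine Continuous.subtype_mk (Continuous.subtype_mk ?_ _) _
    apply Continuous.rot
    · exact continuous_subtype_val.comp ((continuous_ex.comp (by fun_prop)).inv)
    · fun_prop

theorem isOpenMap_coverQ (p m : ℕ) (hp : p ≠ 0) : IsOpenMap (coverQ p m hp) := by
  have h2 : IsOpenMap (fun q : ℝ × Sn (m + 2) => (ex q.1, q.2)) :=
    isOpenMap_ex.prodMap IsOpenMap.id
  have h3 := h2.restrictPreimage (pieceSet p m)
  exact h3.comp (midH p m hp).isOpenMap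

theorem coverQ_surjective (p m : ℕ) (hp : p ≠ 0) : Function.Surjective (coverQ p m hp) := by
  rintro ⟨⟨z, y⟩, h⟩
  obtain ⟨θ, rfl⟩ := ex_surjective z
  refine ⟨(midH p m hp).symm ⟨(θ, y), h⟩, ?_⟩
  have h1 := (midH p m hp).apply_symm_apply ⟨(θ, y), h⟩
  have h2 : ((midH p m hp).symm ⟨(θ, y), h⟩).1 = θ := rfl
  apply Subtype.ext
  apply Prod.ext
  · change ex ((midH p m hp).symm ⟨(θ, y), h⟩).1 = ex θ
    rw [h2]
  · exact congrArg (fun q => q.1.2) h1

theorem coverQ_openEmb (p m : ℕ) (hp : p ≠ 0) (a : ℝ) :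
    Topology.IsOpenEmbedding fun q : (Ioo a (a + 1)) × Punc p m =>
      coverQ p m hp (q.1, q.2) := by
  apply Topology.IsOpenEmbedding.of_continuous_injective_isOpenMap
  · fun_prop
  · rintro ⟨⟨θ, h1⟩, z⟩ ⟨⟨θ', h2⟩, z'⟩ h
    have h3 : ex θ = ex θ' := congrArg (fun q => q.1.1) h
    have h5 := ex_inj h1 h2 h3
    subst h5
    have h6 : midH p m hp (θ, z) = midH p m hp (θ, z') := by
      apply Subtype.ext
      apply Prod.ext
      · rfl
      · exact congrArg (fun q => q.1.2) h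
    have h7 := (midH p m hp).injective h6
    have h8 : z = z' := congrArg Prod.snd h7
    rw [h8]
  · have h1 : IsOpenMap (fun q : (Ioo a (a + 1)) × Punc p m => ((q.1 : ℝ), q.2)) :=
      (isOpen_Ioo.isOpenMap_subtype_val).prodMap IsOpenMap.id
    exact (isOpenMap_coverQ p m hp).comp h1

end Pool.Agent.S1S3.Helper22
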