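import Pool.Agent.Helper22_S1S3.Cover

/-!
# Helper22: the homology of `S¹ × S³` (module CXS)
-/

set_option autoImplicit false
set_option linter.unusedSectionVars false

open scoped Manifold ContDiff Topology
open CategoryTheory Set

noncomputable section

namespace Pool.Agent.S1S3.Helper22

open Pool.Agent.S1S3

/-- in an exact sequence `0 → A → B → C`, injectivity -/
theorem inj_of_exact {A B C : Type} [AddCommGroup A] [AddCommGroup B] [AddCommGroup C]
    {f : A →+ B} {g : B →+ C} (h : Function.Exact f g) (hA : Subsingleton A) :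
    Function.Injective g := by
  rw [injective_iff_map_eq_zero]
  intro b hb
  obtain ⟨a, rfl⟩ := (h b).1 hb
  rw [Subsingleton.elim a 0, map_zero]

theorem surj_of_exact {A B C : Type} [AddCommGroup A] [AddCommGroup B] [AddCommGroup C]
    {f : A →+ B} {g : B →+ C} (h : Function.Exact f g) (hC : Subsingleton C) :
    Function.Surjective f := by
  intro b
  exact (h b).1 (Subsingleton.elim _ _)

theorem subs_of_exact {A B C : Type} [AddCommGroup A] [AddCommGroup B] [AddCommGroup C]
    {f : A →+ B} {g : B →+ C} (h : Function.Exact f g) (hA : Subsingleton A)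
    (hC : Subsingleton C) : Subsingleton B :=
  (inj_of_exact h hA).subsingleton

theorem inj_of_zero {A B C : Type} [AddCommGroup A] [AddCommGroup B] [AddCommGroup C]
    {f : A →+ B} {g : B →+ C} (h : Function.Exact f g) (hf : f = 0) :
    Function.Injective g := by
  rw [injective_iff_map_eq_zero]
  intro b hb
  obtain ⟨a, rfl⟩ := (h b).1 hb
  rw [hf]
  rfl

theorem surj_of_zero {A B C : Type} [AddCommGroup A] [AddCommGroup B] [AddCommGroup C]
    {f : A →+ B} {g : B →+ C} (h : Function.Exact f g) (hg : g = 0) :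
    Function.Surjective f := by
  intro b
  apply (h b).1
  rw [hg]
  rfl

theorem cxs (hF : FunctStatement) (hH : H0Statement) (hS : SphStatement)
    (hW : WangStatement) : CxSStatement := by
  have hpc3 : PathConnectedSpace (Sn 3) := hS.pathConnected 3 (by norm_num)
  have hpcX : PathConnectedSpace (Circle × Sn 3) := by
    have h1 : PathConnectedSpace (ℝ × Sn 3) := inferInstance
    have h2 : Function.Surjective (coverP (Sn 3)) := by
      rintro ⟨z, y⟩
      obtain ⟨θ, rfl⟩ := ex_surjective z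
      exact ⟨(θ, y), rfl⟩
    exact h2.pathConnectedSpace (coverP (Sn 3)).continuous
  obtain ⟨D, h1, h2, h3, h4⟩ := hW (Circle × Sn 3) (Sn 3) (coverP (Sn 3)) (Homeomorph.refl _)
    ⟨Prod.fst, continuous_fst⟩ (fun θ z => rfl) (fun θ z => by
      change ((ex (θ + 1), z) : Circle × Sn 3) = (ex θ, z)
      rw [ex_add_one])
    (by
      rintro ⟨z, y⟩
      obtain ⟨θ, rfl⟩ := ex_surjective z
      exact ⟨(θ, y), rfl⟩)
    (coverP_openEmb (Sn 3))
  have hz : ∀ i, (AddMonoidHom.id (HH i (Sn 3)) -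
      Hm i ((Homeomorph.refl (Sn 3) : Sn 3 ≃ₜ Sn 3) : C(Sn 3, Sn 3))) = 0 := by
    intro i
    have : ((Homeomorph.refl (Sn 3) : Sn 3 ≃ₜ Sn 3) : C(Sn 3, Sn 3)) = ContinuousMap.id _ := rfl
    rw [this, hF.id, sub_self]
  have hinj : ∀ i, Function.Injective (Hm i ((coverP (Sn 3)).comp
      ⟨fun z => ((0 : ℝ), z), by fun_prop⟩)) := fun i => inj_of_zero (h1 i) (hz i)
  have hsurj : ∀ i, Function.Surjective (D i) := fun i => surj_of_zero (h3 i) (hz i)
  have hsub : ∀ i, i ≠ 0 → i ≠ 3 → Subsingleton (HH i (Sn 3)) := fun i h5 h6 =>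
    hS.zero 3 i (by norm_num) h5 h6
  constructor
  · rintro i (rfl | rfl | rfl | rfl)
    · exact hH.int _
    · obtain ⟨e⟩ := hH.int (Sn 3)
      exact ⟨(AddEquiv.ofBijective (D 0) ⟨inj_of_exact (h2 0) (hsub 1 (by norm_num) (by norm_num)),
        hsurj 0⟩).trans e⟩
    · obtain ⟨e⟩ := hS.top 3 (by norm_num)
      exact ⟨(AddEquiv.ofBijective _ ⟨hinj 3,
        surj_of_exact (h2 2) (hsub 2 (by norm_num) (by norm_num))⟩).symm.trans e⟩
    · obtain ⟨e⟩ := hS.top 3 (by norm_num)
      exact ⟨(AddEquiv.ofBijective (D 3) ⟨inj_of_exact (h2 3) (hsub 4 (by norm_num) (by norm_num)),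
        hsurj 3⟩).trans e⟩
  · intro i h0 h1' h3' h4'
    obtain ⟨k, rfl⟩ : ∃ k, i = k + 1 := ⟨i - 1, by omega⟩
    exact subs_of_exact (h2 k) (hsub (k + 1) h0 h3') (hsub k (by omega) (by omega))

end Pool.Agent.S1S3.Helper22
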