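import Pool.Agent.Helper22_S1S3.Cxs

/-!
# Helper22: the homology of the pieces (module PIECE)
-/

set_option autoImplicit false
set_option linter.unusedSectionVars false

open scoped Manifold ContDiff Topology
open CategoryTheory Set

noncomputable section

namespace Pool.Agent.S1S3.Helper22

open Pool.Agent.S1S3

/-! ### algebra -/

section Alg

variable {H : Type} [AddCommGroup H]

/-- two generators exchanged by `ρ` -/
theorem alg_two {e : Fin 2 → H} {s : H} (hs : e 0 = s) (ρ : H →+ H) (h0 : ρ (e 0) = e 1)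
    (h1 : ρ (e 1) = e 0)
    (gen : ∀ x : H, ∃ a : Fin 2 → ℤ, x = ∑ j, a j • e j)
    (rel : ∀ a : Fin 2 → ℤ, ∑ j, a j • e j = 0 ↔ ∀ i j, a i = a j) :
    (∀ x, x - ρ x = 0 → x = 0) ∧ (∀ a : ℤ, (∃ y, a • s = y - ρ y) ↔ (2 : ℤ) ∣ a) ∧
    (∀ x, ∃ (a : ℤ) (y : H), x = a • s + (y - ρ y)) := by
  subst hs
  refine ⟨?_, ?_, ?_⟩
  · intro x hx
    obtain ⟨a, rfl⟩ := gen x
    rw [Fin.sum_univ_two, map_add, map_zsmul, map_zsmul, h0, h1] at hx
    have h2 : ∑ j, (![a 0 - a 1, a 1 - a 0] : Fin 2 → ℤ) j • e j = 0 := by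
      rw [Fin.sum_univ_two, ← hx]
      simp only [Matrix.cons_val_zero, Matrix.cons_val_one, sub_smul]
      abel
    have h3 := (rel _).1 h2 0 1
    simp only [Matrix.cons_val_zero, Matrix.cons_val_one] at h3
    rw [rel]
    have h4 : a 0 = a 1 := by omega
    intro i j
    fin_cases i <;> fin_cases j <;> simp [h4]
  · intro a
    constructor
    · rintro ⟨y, hy⟩
      obtain ⟨b, rfl⟩ := gen y
      rw [Fin.sum_univ_two, map_add, map_zsmul, map_zsmul, h0, h1] at hy
      have h2 : ∑ j, (![b 0 - b 1 - a, b 1 - b 0] : Fin 2 → ℤ) j • e j = 0 := by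
        rw [Fin.sum_univ_two]
        simp only [Matrix.cons_val_zero, Matrix.cons_val_one, sub_smul]
        rw [hy]
        abel
      have h3 := (rel _).1 h2 0 1
      simp only [Matrix.cons_val_zero, Matrix.cons_val_one] at h3
      exact ⟨b 0 - b 1, by omega⟩
    · rintro ⟨c, rfl⟩
      have h2 : ∑ j, (fun _ => c : Fin 2 → ℤ) j • e j = 0 := (rel _).2 fun _ _ => rfl
      rw [Fin.sum_univ_two] at h2
      refine ⟨c • e 0, ?_⟩
      rw [map_zsmul, h0]
      have h3 : c • e 1 = - (c • e 0) := by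
        rw [eq_neg_iff_add_eq_zero, add_comm]
        exact h2
      rw [h3, mul_smul, two_smul]
      abel
  · intro x
    obtain ⟨a, rfl⟩ := gen x
    refine ⟨a 0 + a 1, - (a 1 • e 0), ?_⟩
    rw [Fin.sum_univ_two, map_neg, map_zsmul, h0, add_smul]
    abel

/-- three generators permuted cyclically by `ρ` -/
theorem alg_three {e : Fin 3 → H} {s : H} (hs : e 0 = s) (ρ : H →+ H) (h0 : ρ (e 0) = e 2)
    (h1 : ρ (e 1) = e 0) (h2 : ρ (e 2) = e 1)
    (gen : ∀ x : H, ∃ a : Fin 3 → ℤ, x = ∑ j, a j • e j)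
    (rel : ∀ a : Fin 3 → ℤ, ∑ j, a j • e j = 0 ↔ ∀ i j, a i = a j) :
    (∀ x, x - ρ x = 0 → x = 0) ∧ (∀ a : ℤ, (∃ y, a • s = y - ρ y) ↔ (3 : ℤ) ∣ a) ∧
    (∀ x, ∃ (a : ℤ) (y : H), x = a • s + (y - ρ y)) := by
  subst hs
  refine ⟨?_, ?_, ?_⟩
  · intro x hx
    obtain ⟨a, rfl⟩ := gen x
    rw [Fin.sum_univ_three, map_add, map_add, map_zsmul, map_zsmul, map_zsmul, h0, h1, h2] at hx
    have h2 : ∑ j, (![a 0 - a 1, a 1 - a 2, a 2 - a 0] : Fin 3 → ℤ) j • e j = 0 := by
      rw [Fin.sum_univ_three, ← hx]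
      simp only [Matrix.cons_val_zero, Matrix.cons_val_one, Matrix.cons_val, sub_smul]
      abel
    have h3 := (rel _).1 h2 0 1
    have h4 := (rel _).1 h2 0 2
    simp only [Matrix.cons_val_zero, Matrix.cons_val_one, Matrix.cons_val] at h3 h4
    rw [rel]
    have h5 : a 0 = a 1 := by omega
    have h6 : a 2 = a 1 := by omega
    intro i j
    fin_cases i <;> fin_cases j <;> simp [h5, h6]
  · intro a
    constructor
    · rintro ⟨y, hy⟩
      obtain ⟨b, rfl⟩ := gen y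
      rw [Fin.sum_univ_three, map_add, map_add, map_zsmul, map_zsmul, map_zsmul, h0, h1, h2] at hy
      have h2 : ∑ j, (![b 0 - b 1 - a, b 1 - b 2, b 2 - b 0] : Fin 3 → ℤ) j • e j = 0 := by
        rw [Fin.sum_univ_three]
        simp only [Matrix.cons_val_zero, Matrix.cons_val_one, Matrix.cons_val, sub_smul]
        rw [hy]
        abel
      have h3 := (rel _).1 h2 0 1
      have h4 := (rel _).1 h2 0 2
      simp only [Matrix.cons_val_zero, Matrix.cons_val_one, Matrix.cons_val] at h3 h4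
      exact ⟨b 0 - b 2, by omega⟩
    · rintro ⟨c, rfl⟩
      have h3 : ∑ j, (fun _ => c : Fin 3 → ℤ) j • e j = 0 := (rel _).2 fun _ _ => rfl
      rw [Fin.sum_univ_three] at h3
      refine ⟨- (c • e 1) - c • e 1 - c • e 2, ?_⟩
      rw [map_sub, map_sub, map_neg, map_zsmul, map_zsmul, h1, h2]
      have h4 : c • e 1 + c • e 2 = - (c • e 0) := by
        rw [eq_neg_iff_add_eq_zero, ← h3]
        abel
      have h5 : -(c • e 1) - c • e 1 - c • e 2 - (-(c • e 0) - c • e 0 - c • e 1) =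
          c • e 0 + c • e 0 - (c • e 1 + c • e 2) := by abel
      rw [h5, h4, mul_smul, show (3 : ℤ) = 1 + 1 + 1 by norm_num, add_smul, add_smul, one_smul]
      abel
  · intro x
    obtain ⟨a, rfl⟩ := gen x
    refine ⟨a 0 + a 1 + a 2, (a 1 + a 2) • e 1 + a 2 • e 2, ?_⟩
    rw [Fin.sum_univ_three, map_add, map_zsmul, map_zsmul, h1, h2, add_smul, add_smul, add_smul,
      add_smul]
    abel

end Alg

/-! ### the rotations -/

theorem rootU_eq_pow (p j : ℕ) : rootU p j = rootU p 1 ^ j := by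
  unfold rootU
  rw [← Circle.exp_nsmul, nsmul_eq_mul]
  congr 1
  push_cast
  ring

theorem rootU_zero (p : ℕ) : rootU p 0 = 1 := by
  rw [rootU_eq_pow, pow_zero]

theorem rotP_comp (p m : ℕ) (u v : Circle) (hu : u ^ p = 1) (hv : v ^ p = 1)
    (huv : (v * u) ^ p = 1) :
    (rotP p m v hv : C(Punc p m, Punc p m)).comp (rotP p m u hu : C(Punc p m, Punc p m)) =
      (rotP p m (v * u) huv : C(Punc p m, Punc p m)) := by
  ext x
  change rot (v : ℂ) (rot (u : ℂ) (x.1 : Eu (m + 3))) _ =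
    rot ((v * u : Circle) : ℂ) (x.1 : Eu (m + 3)) _
  rw [Circle.coe_mul, rot_mul]

theorem rotP_one (p m : ℕ) (h : (1 : Circle) ^ p = 1) :
    (rotP p m 1 h : C(Punc p m, Punc p m)) = ContinuousMap.id _ := by
  ext x
  change rot ((1 : Circle) : ℂ) (x.1 : Eu (m + 3)) _ = (x.1 : Eu (m + 3)) _
  rw [Circle.coe_one, rot_one]

theorem inv_root (p : ℕ) (hp : p ≠ 0) : (rootU p 1)⁻¹ ^ p = 1 := by
  rw [inv_pow, rootU_pow p 1 hp, inv_one]

/-- the monodromy of the piece -/
def mono (p m : ℕ) (hp : p ≠ 0) : Punc p m ≃ₜ Punc p m :=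
  rotP p m (rootU p 1)⁻¹ (inv_root p hp)

theorem mono_rot (hF : FunctStatement) (p m i : ℕ) (hp : p ≠ 0) (u w : Circle) (hu : u ^ p = 1)
    (hw : w ^ p = 1) (h : (rootU p 1)⁻¹ * u = w) (x : HH i (Punc p m)) :
    Hm i (mono p m hp : C(Punc p m, Punc p m)) (Hm i (rotP p m u hu : C(Punc p m, Punc p m)) x) =
      Hm i (rotP p m w hw : C(Punc p m, Punc p m)) x := by
  subst h
  rw [← rotP_comp p m u (rootU p 1)⁻¹ hu (inv_root p hp) hw, hF.comp]
  rfl

theorem rot_zero (hF : FunctStatement) (p m i : ℕ) (h : rootU p 0 ^ p = 1)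
    (x : HH i (Punc p m)) : Hm i (rotP p m (rootU p 0) h : C(Punc p m, Punc p m)) x = x := by
  have h1 : ∀ (u : Circle) (hu : u ^ p = 1), u = 1 →
      Hm i (rotP p m u hu : C(Punc p m, Punc p m)) x = x := by
    rintro u hu rfl
    rw [rotP_one, hF.id]
    rfl
  exact h1 _ h (rootU_zero p)

/-- the structure of the homology of the punctured sphere as a module over the monodromy -/
theorem key (hF : FunctStatement) (hP : PunctStatement) (p m : ℕ) (hp : p = 2 ∨ p = 3)
    (hp0 : p ≠ 0) (g₀ : HH (m + 1) (Sn (m + 1)))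
    (hg : ∀ x : HH (m + 1) (Sn (m + 1)), ∃ a : ℤ, x = a • g₀) :
    (∀ x, x - Hm (m + 1) (mono p m hp0 : C(Punc p m, Punc p m)) x = 0 → x = 0) ∧
    (∀ a : ℤ, (∃ y, a • Hm (m + 1) (smallP p m hp) g₀ =
      y - Hm (m + 1) (mono p m hp0 : C(Punc p m, Punc p m)) y) ↔ (p : ℤ) ∣ a) ∧
    (∀ x, ∃ (a : ℤ) (y : HH (m + 1) (Punc p m)), x = a • Hm (m + 1) (smallP p m hp) g₀ +
      (y - Hm (m + 1) (mono p m hp0 : C(Punc p m, Punc p m)) y)) := by
  have hgen := hP.gen p m hp g₀ hg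
  have hrel := hP.rel p m hp g₀ hg
  rcases hp with rfl | rfl
  · have hom : rootU 2 1 ^ 2 = 1 := rootU_pow 2 1 hp0
    have h0 : (rootU 2 1)⁻¹ * rootU 2 0 = rootU 2 1 := by
      rw [rootU_zero, mul_one, inv_eq_iff_mul_eq_one, ← pow_two]
      exact hom
    have h1 : (rootU 2 1)⁻¹ * rootU 2 1 = rootU 2 0 := by
      rw [rootU_zero, inv_mul_cancel]
    exact alg_two (e := fun j : Fin 2 => Hm (m + 1)
      (rotP 2 m (rootU 2 j) (rootU_pow 2 j (by omega)) : C(Punc 2 m, Punc 2 m))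
        (Hm (m + 1) (smallP 2 m (Or.inl rfl)) g₀)) (rot_zero hF 2 m (m + 1) _ _)
      (Hm (m + 1) (mono 2 m hp0 : C(Punc 2 m, Punc 2 m)))
      (mono_rot hF 2 m (m + 1) hp0 _ _ _ _ h0 _) (mono_rot hF 2 m (m + 1) hp0 _ _ _ _ h1 _)
      hgen hrel
  · have hom : rootU 3 1 ^ 3 = 1 := rootU_pow 3 1 hp0
    have h0 : (rootU 3 1)⁻¹ * rootU 3 0 = rootU 3 2 := by
      rw [rootU_zero, mul_one, inv_eq_iff_mul_eq_one, rootU_eq_pow 3 2, ← pow_succ']
      exact hom
    have h1 : (rootU 3 1)⁻¹ * rootU 3 1 = rootU 3 0 := by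
      rw [rootU_zero, inv_mul_cancel]
    have h2 : (rootU 3 1)⁻¹ * rootU 3 2 = rootU 3 1 := by
      rw [rootU_eq_pow 3 2, pow_two, inv_mul_cancel_left]
    exact alg_three (e := fun j : Fin 3 => Hm (m + 1)
      (rotP 3 m (rootU 3 j) (rootU_pow 3 j (by omega)) : C(Punc 3 m, Punc 3 m))
        (Hm (m + 1) (smallP 3 m (Or.inr rfl)) g₀)) (rot_zero hF 3 m (m + 1) _ _)
      (Hm (m + 1) (mono 3 m hp0 : C(Punc 3 m, Punc 3 m)))
      (mono_rot hF 3 m (m + 1) hp0 _ _ _ _ h0 _) (mono_rot hF 3 m (m + 1) hp0 _ _ _ _ h1 _)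
      (mono_rot hF 3 m (m + 1) hp0 _ _ _ _ h2 _)
      hgen hrel

/-! ### the exact sequence of the piece -/

/-- the fibre over `1` -/
def fib (p m : ℕ) (hp : p ≠ 0) : C(Punc p m, Piece p m) :=
  (coverQ p m hp).comp ⟨fun z => ((0 : ℝ), z), by fun_prop⟩

theorem wangPiece (hW : WangStatement) (p m : ℕ) (hp : p ≠ 0) :
    ∃ D : ∀ i : ℕ, HH (i + 1) (Piece p m) →+ HH i (Punc p m),
      (∀ i, Function.Exact (AddMonoidHom.id (HH i (Punc p m)) -
        Hm i (mono p m hp : C(Punc p m, Punc p m))) (Hm i (fib p m hp))) ∧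
      (∀ i, Function.Exact (Hm (i + 1) (fib p m hp)) (D i)) ∧
      (∀ i, Function.Exact (D i) (AddMonoidHom.id (HH i (Punc p m)) -
        Hm i (mono p m hp : C(Punc p m, Punc p m)))) ∧
      Function.Surjective (Hm 0 (fib p m hp)) := by
  refine hW (Piece p m) (Punc p m) (coverQ p m hp) (mono p m hp) (prPiece p m)
    (fun θ z => rfl) ?_ (coverQ_surjective p m hp) (coverQ_openEmb p m hp)
  intro θ z
  apply Subtype.ext
  apply Prod.ext
  · exact ex_add_one θ
  · apply Subtype.ext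
    change rot ((ex ((θ + 1) / p) : Circle) : ℂ)
      (rot (((rootU p 1)⁻¹ : Circle) : ℂ) (z.1 : Eu (m + 3))) =
      rot ((ex (θ / p) : Circle) : ℂ) (z.1 : Eu (m + 3))
    rw [← rot_mul, ← Circle.coe_mul]
    congr 2
    have : ex ((θ + 1) / p) = ex (θ / p) * rootU p 1 := by
      unfold ex rootU
      rw [← Circle.exp_add]
      congr 1
      push_cast
      ring
    rw [this, mul_inv_cancel_right]

theorem fib_small (p m : ℕ) (hp : p = 2 ∨ p = 3) (hp0 : p ≠ 0) :
    (fib p m hp0).comp (smallP p m hp) = (neckMap p m hp).comp (smallN m) := by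
  ext1 u
  apply Subtype.ext
  apply Prod.ext
  · change ex 0 = (1 : Circle) ^ p
    rw [ex_zero, one_pow]
  · apply Subtype.ext
    change rot ((ex (0 / p) : Circle) : ℂ) (tubeV (1 : Circle) ((1 / 4 : ℝ) • (u : Eu (m + 2)))) =
      tubeV (1 : Circle) ((1 / 4 : ℝ) • (u : Eu (m + 2)))
    rw [zero_div, ex_zero, Circle.coe_one, rot_one]

theorem exists_gen {n : ℕ} (e : HH n (Sn n) ≃+ ℤ) : ∃ g₀ : HH n (Sn n),
    ∀ x : HH n (Sn n), ∃ a : ℤ, x = a • g₀ :=
  ⟨e.symm 1, fun x => ⟨e x, by rw [← map_zsmul, zsmul_one, Int.cast_id, e.symm_apply_apply]⟩⟩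

theorem piece (hF : FunctStatement) (hH : H0Statement) (hS : SphStatement)
    (hW : WangStatement) (hP : PunctStatement) : PieceStatement := by
  have hne : ∀ p : ℕ, (p = 2 ∨ p = 3) → p ≠ 0 := by
    rintro p (rfl | rfl) <;> norm_num
  have hpc : ∀ p m : ℕ, (p = 2 ∨ p = 3) → PathConnectedSpace (Piece p m) := by
    intro p m hp
    have := hP.pathConnected p m hp
    have h1 : PathConnectedSpace (ℝ × Punc p m) := inferInstance
    exact (coverQ_surjective p m (hne p hp)).pathConnectedSpace (coverQ p m (hne p hp)).continuous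
  -- the top homology of the fibre dies
  have hinj : ∀ p m : ℕ, (p = 2 ∨ p = 3) → Subsingleton (HH (m + 1 + 1) (Piece p m)) := by
    intro p m hp
    obtain ⟨e⟩ := hS.top (m + 1) (by omega)
    obtain ⟨g₀, hg⟩ := exists_gen e
    obtain ⟨D, h1, h2, h3, h4⟩ := wangPiece hW p m (hne p hp)
    have hz : Subsingleton (HH (m + 1 + 1) (Punc p m)) := hP.zero p m hp _ (by omega) (by omega)
    have hk := (key hF hP p m hp (hne p hp) g₀ hg).1
    have hD := inj_of_exact (h2 (m + 1)) hz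
    constructor
    intro x y
    apply hD
    have hx : ∀ x, D (m + 1) x = 0 := fun x => hk _ ((h3 (m + 1) (D (m + 1) x)).2 ⟨x, rfl⟩)
    rw [hx, hx]
  have hhigh : ∀ p m : ℕ, (p = 2 ∨ p = 3) → ∀ i, m + 1 + 1 + 1 ≤ i →
      Subsingleton (HH i (Piece p m)) := by
    intro p m hp i hi
    obtain ⟨D, h1, h2, h3, h4⟩ := wangPiece hW p m (hne p hp)
    obtain ⟨k, rfl⟩ : ∃ k, i = k + 1 := ⟨i - 1, by omega⟩
    exact subs_of_exact (h2 k) (hP.zero p m hp _ (by omega) (by omega))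
      (hP.zero p m hp _ (by omega) (by omega))
  refine ⟨hpc, ?_, ?_, ?_, ?_, ?_⟩
  · intro p hp i hi
    rcases Nat.lt_or_ge i 3 with h | h
    · have : i = 2 := by omega
      subst this
      exact hinj p 0 hp
    · exact hhigh p 0 hp i (by omega)
  · intro p hp i hi
    rcases Nat.lt_or_ge i 4 with h | h
    · have : i = 3 := by omega
      subst this
      exact hinj p 1 hp
    · exact hhigh p 1 hp i (by omega)
  · intro p hp
    have hZ := hP.pathConnected p 1 hp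
    obtain ⟨D, h1, h2, h3, h4⟩ := wangPiece hW p 1 (hne p hp)
    have hz : Subsingleton (HH (0 + 1) (Punc p 1)) := hP.zero p 1 hp _ (by omega) (by omega)
    have hD := inj_of_exact (h2 0) hz
    -- the projection has a section
    have hsurj : Function.Surjective (Hm 1 (prPiece p 1)) := by
      let y : Sn 3 := ⟨EuclideanSpace.single 2 1, by
        rw [mem_sphere_zero_iff_norm]
        simp⟩
      have hy : ∀ ζ : Circle, (y : Eu (1 + 3)) ≠ core ζ := by
        intro ζ h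
        have h5 : (y : Eu (1 + 3)) 2 = (core ζ : Eu (1 + 3)) 2 := by rw [h]
        have h6 : (y : Eu (1 + 3)) 2 = 1 := by
          change (EuclideanSpace.single (2 : Fin 4) (1 : ℝ)) 2 = 1
          simp
        have h7 : (core ζ : Eu (1 + 3)) 2 = 0 := by
          unfold core
          have h8 := rot_apply_ge (k := 2) (ζ : ℂ) (EuclideanSpace.single (0 : Fin 4) (1 : ℝ)) 0
          change rot (ζ : ℂ) (EuclideanSpace.single (0 : Fin 4) (1 : ℝ)) 2 = 0
          change rot (ζ : ℂ) (EuclideanSpace.single (0 : Fin 4) (1 : ℝ)) 2 = _ at h8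
          rw [h8]
          simp
        rw [h6, h7] at h5
        exact one_ne_zero h5
      let s : C(Circle, Piece p 1) := ⟨fun z => ⟨(z, y), fun ζ _ => hy ζ⟩, by fun_prop⟩
      have hs : (prPiece p 1).comp s = ContinuousMap.id _ := rfl
      intro x
      refine ⟨Hm 1 s x, ?_⟩
      have h9 := hF.comp 1 _ _ _ s (prPiece p 1)
      rw [hs, hF.id] at h9
      exact (congrArg (fun f => f x) h9).symm
    -- both groups are infinite cyclic
    obtain ⟨e1⟩ := hS.circle
    obtain ⟨e0⟩ := hH.int (Punc p 1)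
    let F : HH 1 (Piece p 1) →+ ℤ := (e0 : HH 0 (Punc p 1) →+ ℤ).comp (D 0)
    have hFinj : Function.Injective F := e0.injective.comp hD
    refine ⟨?_, hsurj⟩
    rw [injective_iff_map_eq_zero]
    intro x hx
    obtain ⟨t, ht⟩ := hsurj (e1.symm 1)
    -- every two elements are commensurable
    have hc : F t • x = F x • t := by
      apply hFinj
      rw [map_zsmul, map_zsmul, smul_eq_mul, smul_eq_mul, mul_comm]
    have hc2 := congrArg (fun u => e1 (Hm 1 (prPiece p 1) u)) hc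
    simp only [map_zsmul] at hc2
    rw [hx, ht, map_zero, smul_zero, e1.apply_symm_apply, zsmul_one, Int.cast_id] at hc2
    apply hFinj
    rw [map_zero]
    exact hc2.symm
  · intro p hp g₀ hg x
    obtain ⟨D, h1, h2, h3, h4⟩ := wangPiece hW p 1 (hne p hp)
    have hz : Subsingleton (HH 1 (Punc p 1)) := hP.zero p 1 hp _ (by omega) (by omega)
    obtain ⟨y, rfl⟩ := surj_of_exact (h2 1) hz x
    obtain ⟨a, z, hy⟩ := (key hF hP p 1 hp (hne p hp) g₀ hg).2.2 y
    refine ⟨a, ?_⟩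
    have h5 : Hm 2 (fib p 1 (hne p hp)) (z - Hm 2 (mono p 1 (hne p hp) :
        C(Punc p 1, Punc p 1)) z) = 0 := (h1 2 _).2 ⟨z, rfl⟩
    rw [← fib_small p 1 hp (hne p hp), hF.comp]
    have h6 : Hm (1 + 1) (fib p 1 (hne p hp)) y = a • Hm 2 (fib p 1 (hne p hp))
        (Hm 2 (smallP p 1 hp) g₀) := by
      rw [hy, map_add, map_zsmul]
      refine (congrArg (fun u => _ + u) h5).trans ?_
      rw [add_zero]
    exact h6
  · intro p hp g₀ hg a
    obtain ⟨D, h1, h2, h3, h4⟩ := wangPiece hW p 1 (hne p hp)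
    rw [← (key hF hP p 1 hp (hne p hp) g₀ hg).2.1 a, ← fib_small p 1 hp (hne p hp), hF.comp]
    have h5 := h1 2 (a • Hm 2 (smallP p 1 hp) g₀)
    rw [map_zsmul] at h5
    constructor
    · intro h
      obtain ⟨y, hy⟩ := h5.1 h
      exact ⟨y, hy.symm⟩
    · rintro ⟨y, hy⟩
      exact h5.2 ⟨y, hy.symm⟩

end Pool.Agent.S1S3.Helper22
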